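import Pool.Agent.U485.SM.All

/-!
# Triplets in all short windows, in sieved random models of the primes

`T` is nondecreasing, tends to infinity, `T(n) = n^{o(1)}`; every `n` without prime factors `≤ T(n)` is chosen
independently with probability `min(1, ∏_{p ≤ T(n)} (1 - 1/p)⁻¹ / log n)`. Almost surely the number of the triplets of the
problem (three consecutive chosen numbers `p, q, r` with `r - p = 6`, and the `p` with `p`, `p + 6` and one of
`p + 2`, `p + 4` chosen) with `p` in `(x, x + h]` is asymptotic to `9 D h/(log x)³` in all windows `x^η ≤ h ≤ x`.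

Project HT: packages of helper891, helper660, helper139, helper803, helper445, helper373, helper741, helper668,
helper333, helper200, helper165, helper591, helper934.
-/

set_option autoImplicit false

namespace Pool.Agent.Results.MP_dddec0_nt.AllWindowsInRandomModels

open MeasureTheory Filter Topology Pool.Agent.U485.SM

/-- the number of the `p` in `(x, x + h]` with `p`, `p + 6` and `p + 2` or `p + 4` in `Q` -/
noncomputable def triplets (Q : Set ℕ) (x h : ℕ) : ℕ :=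
  {p : ℕ | x < p ∧ p ≤ x + h ∧ p ∈ Q ∧ (p + 2 ∈ Q ∨ p + 4 ∈ Q) ∧ p + 6 ∈ Q}.ncard

/-- the number of the `p` in `(x, x + h]` such that `p, p + b, p + 6` are three consecutive elements of `Q` -/
noncomputable def consecutive (Q : Set ℕ) (b x h : ℕ) : ℕ :=
  {p : ℕ | x < p ∧ p ≤ x + h ∧ ∀ j ≤ 6, (p + j ∈ Q ↔ j ∈ ({0, b, 6} : Finset ℕ))}.ncard

/-- **Triplets in all short windows, in sieved random models.** -/
theorem result : ∃ D : ℝ, 0 < D ∧
    Tendsto (fun y : ℕ => ∏ p ∈ (Finset.Icc 5 y).filter Nat.Prime, ((p : ℝ) ^ 2 * (p - 3) / (p - 1) ^ 3)) atTop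
      (𝓝 D) ∧
    ∀ (Ω : Type) [MeasurableSpace Ω] (μ : Measure Ω) [IsProbabilityMeasure μ] (T : ℕ → ℕ) (E : ℕ → Set Ω),
      Monotone T → Tendsto T atTop atTop → (∀ ε : ℝ, 0 < ε → ∀ᶠ n : ℕ in atTop, (T n : ℝ) ≤ (n : ℝ) ^ ε) →
      Model μ T E → ∀ᵐ ω ∂μ, ∀ δ η : ℝ, 0 < δ → 0 < η → ∀ᶠ x : ℕ in atTop, ∀ h : ℕ, (x : ℝ) ^ η ≤ h → h ≤ x →
        |(triplets {m | ω ∈ E m} x h : ℝ) * (Real.log x) ^ 3 / h - 9 * D| ≤ δ ∧
        |(consecutive {m | ω ∈ E m} 2 x h : ℝ) * (Real.log x) ^ 3 / h - 9 / 2 * D| ≤ δ ∧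
        |(consecutive {m | ω ∈ E m} 4 x h : ℝ) * (Real.log x) ^ 3 / h - 9 / 2 * D| ≤ δ := by
  obtain ⟨D, hD0, hD, h26, h46⟩ := co3
  refine ⟨D, hD0, hD, ?_⟩
  intro Ω _ μ _ T E hT hTt hTs hE
  filter_upwards [as_H hT hTt hTs hE] with ω hω δ η hδ hη
  filter_upwards [trp _ hω D hD δ η hδ hη, exact sin hω {0, 2, 6} _ h26 δ η hδ hη,
    exact sin hω {0, 4, 6} _ h46 δ η hδ hη, eventually_ge_atTop 1] with x hx g1 g2 hx1 h h1 h2
  have hx0 : (0 : ℝ) < x := by exact_mod_cast hx1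
  have hh : (0 : ℝ) < h := lt_of_lt_of_le (Real.rpow_pos_of_pos hx0 η) h1
  have c26 : ({0, 2, 6} : Finset ℕ).card = 3 := by decide
  have c46 : ({0, 4, 6} : Finset ℕ).card = 3 := by decide
  have s26 : ({0, 2, 6} : Finset ℕ).sup id = 6 := by decide
  have s46 : ({0, 4, 6} : Finset ℕ).sup id = 6 := by decide
  have g3 := g1 h h1 h2
  have g4 := g2 h h1 h2
  unfold numx at g3 g4
  rw [c26, s26] at g3
  rw [c46, s46] at g4
  exact ⟨hx h h1 h2, quot hh g3, quot hh g4⟩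

end Pool.Agent.Results.MP_dddec0_nt.AllWindowsInRandomModels
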