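import Mathlib
import Pool.Agent.U364.RP.Win

/-!
# Primes `p` with `p + b, p + 6` almost prime (`b = 2` or `4`) in all windows around a positive proportion of the integers

Let `b` be `2` or `4`: the two shapes of prime triplets. There are `r` and `c₁, c₂, K > 0` such that a positive proportion of all
integers `n` is regular: EVERY interval `(a, a']` with `a ≤ n ≤ a'` and `K log ^ 3 n ≤ a' - a ≤ n` contains between
`c₁ (a' - a) / log ^ 3 n` and `c₂ (a' - a) / log ^ 3 n` PRIMES `p` for which `p + b` and `p + 6` have at most `r` prime factors,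
all larger than `n ^ (1 / r)`. So the order of magnitude of the Hardy-Littlewood formula for the triplets is right, for almost
prime triplets, in all windows around these `n`, at all scales down to a constant times the average distance.

Proof: the theorem on regular windows (starting files, `Pool.Agent.W182.PW`) for these forms.
-/

set_option autoImplicit false

namespace Pool.Agent.Results.MP_dddec0_nt.RegularWindows

open Finset Filter

/-- `p` is prime and `p + e`, `p + 6` have at most `r` prime factors (with multiplicity), all of them larger than `z`. -/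
def AlmostPrimeTuple (e : ℕ) (r : ℕ) (z : ℝ) (p : ℕ) : Prop :=
  p.Prime ∧ ∀ h ∈ ({e, 6} : Finset ℕ), (p + h).primeFactorsList.length ≤ r ∧
    ∀ q : ℕ, q.Prime → q ∣ p + h → z < (q : ℝ)

open Classical in
/-- `n` is regular. -/
def Regular (e : ℕ) (r : ℕ) (c₁ c₂ K : ℝ) (n : ℕ) : Prop :=
  ∀ a b : ℕ, a ≤ n → n ≤ b → K * Real.log n ^ 3 ≤ (b : ℝ) - a → (b : ℝ) - a ≤ n →
    c₁ * ((b : ℝ) - a) / Real.log n ^ 3 ≤
      (((Finset.Ioc a b).filter (fun p => AlmostPrimeTuple e r ((n : ℝ) ^ (1 / (r : ℝ))) p)).card : ℝ) ∧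
    (((Finset.Ioc a b).filter (fun p => AlmostPrimeTuple e r ((n : ℝ) ^ (1 / (r : ℝ))) p)).card : ℝ) ≤
      c₂ * ((b : ℝ) - a) / Real.log n ^ 3

open Classical in
/-- **Regular windows.** For some `r` and positive `c₁, c₂, K, κ` and all large `x` at least `κ x`
of the integers `n` in `[1, x]` are regular. -/
theorem result (e : ℕ) (he : e = 2 ∨ e = 4) :
    ∃ (r : ℕ) (c₁ c₂ K κ : ℝ), 0 < c₁ ∧ 0 < c₂ ∧ 0 < K ∧ 0 < κ ∧
    ∀ᶠ x : ℕ in atTop, κ * x ≤ (((Finset.Icc 1 x).filter (fun n => Regular e r c₁ c₂ K n)).card : ℝ) := by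
  rcases he with rfl | rfl
  · exact Pool.Agent.U364.RP.win_shift {2, 6} (by simp) (Pool.Agent.U364.RP.adm_shift _ 11 41 (by
      norm_num [Finset.prod_insert])) (AlmostPrimeTuple 2) (fun _ _ _ => Iff.rfl) 3 (by simp)
  · exact Pool.Agent.U364.RP.win_shift {4, 6} (by simp) (Pool.Agent.U364.RP.adm_shift _ 13 37 (by
      norm_num [Finset.prod_insert])) (AlmostPrimeTuple 4) (fun _ _ _ => Iff.rfl) 3 (by simp)

end Pool.Agent.Results.MP_dddec0_nt.RegularWindows
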