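import Pool.Agent.U455.PPC

/-!
# Every large multiple of twelve is a bounded sum of differences which occur in a positive proportion of all triples

There is an ABSOLUTE `h` such that for every `k ≥ 1` there are `c > 0` and `T` such that for every `b ≥ 1` EVERY multiple
`t ≥ T` of `6` is a sum of at most `h` positive integers `g` with the following property: for at least `c t ^ k` of the
vectors `e ∈ [-t, t] ^ k` the numbers `n`, `n + 2 b g`, `n + 2 b e_1`, ..., `n + 2 b e_k` are all prime for infinitely many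
`n`, and even for all `n` in arbitrarily long narrow arithmetic progressions (precisely: the shape `(g, e)` is `Good`).

`b = k = 1`: every large multiple `t` of `12` is a sum of at most `h` even numbers `d` such that for a positive proportion
of all even `e` with `|e| ≤ t` there are infinitely many prime triples `n, n + d, n + e`.

Proof: for each of the moduli `b, 2 b, 3 b` at least `(1/3 - ε) H` of the `g ≤ H` have `c H ^ k` good companions
(`Pool.Agent.N646.TT.third_tup`, starting files), with constants independent of the modulus; dilation by `d = 2, 3` maps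
the good shapes for `b d` to good shapes for `b` (`Pool.Agent.U455.PPC.extQ_mul`), so the set of the `g` with many
companions at the scale `t` has density above `1/4` along the multiples of `1, 2, 3`, in all intervals `[1, H]` with
`t / C ≤ H ≤ t`; the theorem on bounded sums of such sets (`Pool.Agent.U455.BT.main`) reaches `t` itself.
-/

set_option autoImplicit false

namespace Pool.Agent.Results.MP_dddec0_nt.SumsWithManyCompanions

open Finset Filter

open Classical in
/-- the number of the `1 ≤ m ≤ 2 x` such that for each of the `l` numbers `n = m, m + D, ..., m + (l - 1) D` the numbers `n`,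
`n + 2 b g` and all `n + 2 b e i` are primes and all primes within distance `R` of `n` are `≡ n (mod 2 b)` -/
noncomputable def progressions {k : ℕ} (b g : ℕ) (e : Fin k → ℤ) (l D R x : ℕ) : ℕ :=
  ((Icc 1 (2 * x)).filter (fun m : ℕ => ∀ j < l, (m + j * D).Prime ∧ (m + j * D + 2 * b * g).Prime ∧
    (∀ i, (((m + j * D : ℕ) : ℤ) + 2 * b * e i).toNat.Prime) ∧
    ∀ q : ℕ, q.Prime → |(q : ℤ) - ((m + j * D : ℕ) : ℤ)| ≤ R →
      ((2 * b : ℕ) : ℤ) ∣ (q : ℤ) - ((m + j * D : ℕ) : ℤ))).card

/-- for all `l` and `R` there is `C` such that for arbitrarily large `x` there is `1 ≤ D ≤ (log x) ^ C` with at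
least `x / (log x) ^ C` progressions of length `l` and difference `D` -/
def Good {k : ℕ} (b g : ℕ) (e : Fin k → ℤ) : Prop := ∀ l R : ℕ, ∃ C : ℕ, ∃ᶠ x : ℕ in atTop,
    ∃ D : ℕ, 1 ≤ D ∧ (D : ℝ) ≤ Real.log x ^ C ∧ (x : ℝ) / Real.log x ^ C ≤ (progressions b g e l D R x : ℝ)

/-- the number of the good companions `e` of `g` with `k` distinct coordinates, different from `0` and `g` and at most `H`
in absolute value -/
noncomputable def companions (k b H g : ℕ) : ℕ :=
  {e : Fin k → ℤ | (∀ i, |e i| ≤ H) ∧ Function.Injective e ∧ (∀ i, e i ≠ 0 ∧ e i ≠ g) ∧ Good b g e}.ncard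

theorem result : ∃ h : ℕ, ∀ k : ℕ, 1 ≤ k → ∃ c : ℝ, 0 < c ∧ ∃ T : ℕ, ∀ b : ℕ, 1 ≤ b → ∀ t : ℕ, T ≤ t → 6 ∣ t →
    ∃ l : List ℕ, l.length ≤ h ∧ l.sum = t ∧ ∀ g ∈ l, 1 ≤ g ∧ c * (t : ℝ) ^ k ≤ (companions k b t g : ℝ) := by
  classical
  obtain ⟨h, hh⟩ := Pool.Agent.U455.PPC.main
  refine ⟨h, fun k _ => ?_⟩
  obtain ⟨c, hc, T, hT⟩ := hh k
  refine ⟨c, hc, T, fun b hb t ht h6 => ?_⟩
  obtain ⟨l, hl1, hl2, hl3⟩ := hT b hb t ht h6
  refine ⟨l, hl1, hl2, fun g hg => ⟨(hl3 g hg).1, (hl3 g hg).2.trans (Nat.cast_le.2 ?_)⟩⟩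
  rw [← Set.ncard_coe_finset]
  have hfin : {e : Fin k → ℤ | ∀ i, |e i| ≤ (t : ℤ)}.Finite := by
    refine (Fintype.piFinset (fun _ : Fin k => Icc (-(t : ℤ)) t)).finite_toSet.subset ?_
    intro e he
    rw [mem_coe, Fintype.mem_piFinset]
    exact fun i => mem_Icc.2 (abs_le.1 (he i))
  refine Set.ncard_le_ncard ?_ (hfin.subset fun e he => he.1)
  intro e he
  have he' := mem_coe.1 he
  unfold Pool.Agent.N646.TT.extQ at he'
  rw [mem_filter, Fintype.mem_piFinset] at he'
  obtain ⟨h1, h2, h3, h4⟩ := he'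
  exact ⟨fun i => abs_le.2 (mem_Icc.1 (h1 i)), h2, h3, h4⟩

end Pool.Agent.Results.MP_dddec0_nt.SumsWithManyCompanions
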